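import Mathlib

set_option autoImplicit false

namespace Pool.Agent.Results.MP_4a987e_co.EnergyUnbounded

open Matrix Finset

open Classical in
/-- The eigenvalues (with multiplicity, indexed by the vertices) of the real adjacency matrix
of a finite simple graph. -/
noncomputable def eig {V : Type} [Fintype V] (G : SimpleGraph V) : V → ℝ :=
  (SimpleGraph.isHermitian_adjMatrix (R := ℝ) G).eigenvalues

/-- The energy of a finite simple graph: the sum of the absolute values of the eigenvalues of
its adjacency matrix, counted with multiplicity. -/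
noncomputable def energy {V : Type} [Fintype V] (G : SimpleGraph V) : ℝ :=
  ∑ i, |eig G i|

/-- The spectral radius: the largest eigenvalue of the adjacency matrix. -/
noncomputable def specRadius {V : Type} [Fintype V] (G : SimpleGraph V) : ℝ :=
  ⨆ i, eig G i

/-- The spider with `s` legs of length two: a centre `none`, joined to the `s` vertices
`some (i, false)`, each of which carries one pendant vertex `some (i, true)`. -/
def spider (s : ℕ) : SimpleGraph (Option (Fin s × Bool)) where
  Adj x y := match x, y with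
    | none, some (_, false) => True
    | some (_, false), none => True
    | some (i, false), some (j, true) => i = j
    | some (i, true), some (j, false) => i = j
    | _, _ => False
  symm := by
    constructor
    rintro (_ | ⟨i, _ | _⟩) (_ | ⟨j, _ | _⟩) <;> simp +contextual
  loopless := by
    constructor
    rintro (_ | ⟨i, _ | _⟩) <;> simp

/-- Two trace identities for a symmetric real matrix and an arbitrary matrix. -/
lemma trace_identity {V : Type} [Fintype V] [DecidableEq V] {A : Matrix V V ℝ}
    (hA : A.IsHermitian) (U : Matrix V V ℝ) :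
    (U * A).trace = ∑ i, hA.eigenvalues i *
        ((hA.eigenvectorBasis i : V → ℝ) ⬝ᵥ (U *ᵥ (hA.eigenvectorBasis i : V → ℝ))) ∧
    U.trace = ∑ i,
        ((hA.eigenvectorBasis i : V → ℝ) ⬝ᵥ (U *ᵥ (hA.eigenvectorBasis i : V → ℝ))) := by
  set Q : Matrix V V ℝ := (hA.eigenvectorUnitary : Matrix V V ℝ) with hQ
  have hQQ : Q * star Q = 1 := Unitary.coe_mul_star_self hA.eigenvectorUnitary
  have hdiag : ∀ i, (star Q * U * Q) i i =
      ((hA.eigenvectorBasis i : V → ℝ) ⬝ᵥ (U *ᵥ (hA.eigenvectorBasis i : V → ℝ))) := by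
    intro i
    rw [Matrix.mul_assoc, Matrix.mul_apply]
    simp only [dotProduct]
    refine Finset.sum_congr rfl fun j _ => ?_
    congr 1
  constructor
  · have hspec := hA.spectral_theorem
    rw [Unitary.conjStarAlgAut_apply] at hspec
    have h1 : U * A = U * (Q * diagonal (RCLike.ofReal ∘ hA.eigenvalues) * star Q) := by
      conv_lhs => rw [hspec]
    rw [h1, ← Matrix.mul_assoc, Matrix.trace_mul_comm, ← Matrix.mul_assoc, ← Matrix.mul_assoc,
      Matrix.trace]
    refine Finset.sum_congr rfl fun i _ => ?_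
    rw [Matrix.diag_apply, Matrix.mul_diagonal, hdiag, mul_comm]
    rfl
  · have h1 : U.trace = (star Q * U * Q).trace := by
      rw [Matrix.trace_mul_comm, ← Matrix.mul_assoc, hQQ, Matrix.one_mul]
    rw [h1, Matrix.trace]
    exact Finset.sum_congr rfl fun i _ => by rw [Matrix.diag_apply, hdiag]


lemma sum_sq_eigenvector {V : Type} [Fintype V] [DecidableEq V] {A : Matrix V V ℝ}
    (hA : A.IsHermitian) (i : V) :
    ∑ j, (hA.eigenvectorBasis i : V → ℝ) j * (hA.eigenvectorBasis i : V → ℝ) j = 1 := by
  have h := hA.eigenvectorBasis.orthonormal.1 i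
  have h2 : ‖hA.eigenvectorBasis i‖ ^ 2 = 1 := by rw [h]; norm_num
  rw [EuclideanSpace.norm_sq_eq] at h2
  rw [← h2]
  refine Finset.sum_congr rfl fun j _ => ?_
  rw [Real.norm_eq_abs, sq_abs, sq]

/-- The energy is at least the number of ordered pairs `(x, σ x)` that are edges, for every
permutation `σ` of the vertices. -/
lemma le_energy {V : Type} [Fintype V] (G : SimpleGraph V) (σ : Equiv.Perm V) (M : Finset V)
    (hM : ∀ x ∈ M, G.Adj x (σ x)) : (M.card : ℝ) ≤ energy G := by
  classical
  set A : Matrix V V ℝ := G.adjMatrix ℝ with hAdef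
  have hA : A.IsHermitian := SimpleGraph.isHermitian_adjMatrix (R := ℝ) G
  set U : Matrix V V ℝ := fun x y => if σ y = x then 1 else 0 with hU
  have htr : (M.card : ℝ) ≤ (U * A).trace := by
    rw [Matrix.trace]
    simp only [Matrix.diag_apply, Matrix.mul_apply]
    have h1 : ∀ x, ∑ y, U x y * A y x = A (σ.symm x) x := by
      intro x
      rw [Finset.sum_eq_single (σ.symm x)]
      · simp [hU]
      · intro y _ hy
        have : σ y ≠ x := fun h => hy (by rw [← h]; simp)
        simp [hU, this]
      · simp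
    rw [Finset.sum_congr rfl fun x _ => h1 x, ← Equiv.sum_comp σ]
    simp only [Equiv.symm_apply_apply]
    have h2 : (M.card : ℝ) = ∑ x ∈ M, A x (σ x) := by
      rw [Finset.sum_congr rfl (g := fun _ => (1 : ℝ))]
      · simp
      · intro x hx
        rw [hAdef, SimpleGraph.adjMatrix_apply, if_pos (hM x hx)]
    rw [h2]
    refine Finset.sum_le_sum_of_subset_of_nonneg (Finset.subset_univ _) ?_
    intro x _ _
    rw [hAdef, SimpleGraph.adjMatrix_apply]
    split_ifs <;> norm_num
  refine htr.trans ?_
  rw [(trace_identity hA U).1]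
  have hen : energy G = ∑ i, |hA.eigenvalues i| := rfl
  rw [hen]
  refine Finset.sum_le_sum fun i _ => ?_
  set v : V → ℝ := (hA.eigenvectorBasis i : V → ℝ) with hv
  have hv1 : ∑ j, v j * v j = 1 := sum_sq_eigenvector hA i
  have hUv : v ⬝ᵥ (U *ᵥ v) = ∑ x, v (σ x) * v x := by
    simp only [dotProduct, Matrix.mulVec]
    rw [← Equiv.sum_comp σ]
    refine Finset.sum_congr rfl fun x _ => ?_
    congr 1
    rw [Finset.sum_eq_single x]
    · simp [hU]
    · intro y _ hy
      have : σ y ≠ σ x := fun h => hy (σ.injective h)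
      simp [hU, this]
    · simp
  have hv2 : ∑ x, v (σ x) * v (σ x) = 1 := by
    rw [Equiv.sum_comp σ (fun x => v x * v x), hv1]
  have hle : |v ⬝ᵥ (U *ᵥ v)| ≤ 1 := by
    rw [hUv, abs_le]
    constructor
    · have : 0 ≤ ∑ x, (v (σ x) + v x) * (v (σ x) + v x) :=
        Finset.sum_nonneg fun x _ => mul_self_nonneg _
      have h3 : ∑ x, (v (σ x) + v x) * (v (σ x) + v x)
          = ∑ x, v (σ x) * v (σ x) + 2 * ∑ x, v (σ x) * v x + ∑ x, v x * v x := by
        rw [Finset.mul_sum, ← Finset.sum_add_distrib, ← Finset.sum_add_distrib]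
        exact Finset.sum_congr rfl fun x _ => by ring
      rw [h3, hv1, hv2] at this
      linarith
    · have : 0 ≤ ∑ x, (v (σ x) - v x) * (v (σ x) - v x) :=
        Finset.sum_nonneg fun x _ => mul_self_nonneg _
      have h3 : ∑ x, (v (σ x) - v x) * (v (σ x) - v x)
          = ∑ x, v (σ x) * v (σ x) - 2 * ∑ x, v (σ x) * v x + ∑ x, v x * v x := by
        rw [Finset.mul_sum, ← Finset.sum_sub_distrib, ← Finset.sum_add_distrib]
        exact Finset.sum_congr rfl fun x _ => by ring
      rw [h3, hv1, hv2] at this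
      linarith
  calc hA.eigenvalues i * (v ⬝ᵥ (U *ᵥ v)) ≤ |hA.eigenvalues i * (v ⬝ᵥ (U *ᵥ v))| := le_abs_self _
    _ = |hA.eigenvalues i| * |v ⬝ᵥ (U *ᵥ v)| := abs_mul _ _
    _ ≤ |hA.eigenvalues i| * 1 := mul_le_mul_of_nonneg_left hle (abs_nonneg _)
    _ = |hA.eigenvalues i| := mul_one _

open Classical in
/-- The Rayleigh quotient bound for the largest adjacency eigenvalue. -/
lemma rayleigh_le {V : Type} [Fintype V] (G : SimpleGraph V) (x : V → ℝ) :
    ∑ i, ∑ j, x i * (if G.Adj i j then 1 else 0) * x j ≤ specRadius G * ∑ i, x i * x i := by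
  set A : Matrix V V ℝ := G.adjMatrix ℝ with hAdef
  have hA : A.IsHermitian := SimpleGraph.isHermitian_adjMatrix (R := ℝ) G
  have hsp : specRadius G = ⨆ i, hA.eigenvalues i := rfl
  set U : Matrix V V ℝ := fun i j => x i * x j with hU
  have h1 : (U * A).trace = ∑ i, ∑ j, x i * (if G.Adj i j then 1 else 0) * x j := by
    rw [Matrix.trace]
    refine Finset.sum_congr rfl fun i _ => ?_
    rw [Matrix.diag_apply, Matrix.mul_apply]
    refine Finset.sum_congr rfl fun j _ => ?_
    rw [hAdef, SimpleGraph.adjMatrix_apply, hU]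
    simp only [G.adj_comm j i]
    ring
  have h2 : U.trace = ∑ i, x i * x i := rfl
  obtain ⟨h3, h4⟩ := trace_identity hA U
  rw [← h1, ← h2, h3, h4, Finset.mul_sum]
  refine Finset.sum_le_sum fun i _ => ?_
  refine mul_le_mul_of_nonneg_right ?_ ?_
  · rw [hsp]
    exact le_ciSup (f := hA.eigenvalues) (Set.finite_range _).bddAbove i
  · have : (hA.eigenvectorBasis i : V → ℝ) ⬝ᵥ (U *ᵥ (hA.eigenvectorBasis i : V → ℝ))
        = (∑ j, (hA.eigenvectorBasis i : V → ℝ) j * x j) ^ 2 := by
      simp only [dotProduct, Matrix.mulVec, hU]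
      rw [sq, Finset.sum_mul_sum]
      refine Finset.sum_congr rfl fun j _ => ?_
      rw [Finset.mul_sum]
      exact Finset.sum_congr rfl fun l _ => by ring
    rw [this]
    positivity


instance (s : ℕ) : DecidableRel (spider s).Adj := by
  rintro (_ | ⟨i, _ | _⟩) (_ | ⟨j, _ | _⟩) <;> simp only [spider] <;> infer_instance

lemma spider_connected (s : ℕ) : (spider s).Connected := by
  have h : ∀ x, (spider s).Reachable none x := by
    rintro (_ | ⟨i, _ | _⟩)
    · exact SimpleGraph.Reachable.refl _
    · exact SimpleGraph.Adj.reachable (by simp [spider])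
    · refine (SimpleGraph.Adj.reachable (v := some (i, false)) (by simp [spider])).trans
        (SimpleGraph.Adj.reachable (by simp [spider]))
  exact { preconnected := fun x y => (h x).symm.trans (h y), nonempty := ⟨none⟩ }

lemma spider_edges (s : ℕ) : (spider s).edgeSet.ncard ≤ 2 * s := by
  classical
  have hsub : (spider s).edgeSet ⊆ Set.range (fun p : Fin s × Bool =>
      if p.2 then s(some (p.1, false), some (p.1, true)) else s(none, some (p.1, false))) := by
    intro e
    induction e using Sym2.ind with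
    | _ x y =>
      intro he
      rw [SimpleGraph.mem_edgeSet] at he
      rcases x with _ | ⟨i, _ | _⟩ <;> rcases y with _ | ⟨j, _ | _⟩ <;> simp [spider] at he
      · exact ⟨(j, false), by simp⟩
      · exact ⟨(i, false), by simp [Sym2.eq_swap]⟩
      · exact ⟨(i, true), by simp [he]⟩
      · exact ⟨(i, true), by simp [he, Sym2.eq_swap]⟩
  calc (spider s).edgeSet.ncard ≤ _ := Set.ncard_le_ncard hsub (Set.toFinite _)
    _ ≤ (Set.univ : Set (Fin s × Bool)).ncard := by
        rw [← Set.image_univ]
        exact Set.ncard_image_le (Set.toFinite _)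
    _ = 2 * s := by
        rw [Set.ncard_univ, Nat.card_eq_fintype_card]
        simp [mul_comm]

lemma spider_edges_pos (s : ℕ) (hs : 0 < s) : 1 ≤ (spider s).edgeSet.ncard := by
  refine (Set.ncard_pos (Set.toFinite _)).mpr ?_
  exact ⟨s(none, some (⟨0, hs⟩, false)), by rw [SimpleGraph.mem_edgeSet]; simp [spider]⟩

/-- The permutation exchanging the two vertices of every leg. -/
def legSwap (s : ℕ) : Equiv.Perm (Option (Fin s × Bool)) :=
  Equiv.optionCongr (Equiv.prodCongr (Equiv.refl _) Equiv.boolNot)

lemma spider_energy (s : ℕ) : (2 * s : ℝ) ≤ energy (spider s) := by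
  classical
  have h := le_energy (spider s) (legSwap s) (Finset.univ.erase none) (by
    rintro (_ | ⟨i, _ | _⟩) hx
    · simp at hx
    · simp [legSwap, spider]
    · simp [legSwap, spider])
  have hc : ((Finset.univ.erase (none : Option (Fin s × Bool))).card : ℝ) = 2 * s := by
    rw [Finset.card_erase_of_mem (Finset.mem_univ _)]
    simp [mul_comm]
  rw [hc] at h
  exact h

lemma spider_specRadius (k : ℕ) (hk : 0 < k) : (k : ℝ) ≤ specRadius (spider (k ^ 2)) := by
  classical
  have h := rayleigh_le (spider (k ^ 2)) (fun v => match v with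
    | none => (k : ℝ)
    | some (_, false) => 1
    | some (_, true) => 0)
  simp only [Fintype.sum_option, Fintype.sum_prod_type, Fintype.sum_bool] at h
  simp [spider] at h
  have hk' : (0 : ℝ) < k := by exact_mod_cast hk
  have h2 : (k : ℝ) * ((k : ℝ) ^ 2 + k ^ 2) ≤
      specRadius (spider (k ^ 2)) * ((k : ℝ) ^ 2 + k ^ 2) := by
    unfold spider
    nlinarith [h]
  exact le_of_mul_le_mul_right h2 (by positivity)

/-- For every real constant `C` there is a connected graph with at least one edge whose energy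
exceeds `C * (2 m / √λ₁)`. -/
theorem result : ∀ C : ℝ, ∃ (V : Type) (_ : Fintype V) (G : SimpleGraph V),
    G.Connected ∧ 1 ≤ G.edgeSet.ncard ∧
      C * (2 * (G.edgeSet.ncard : ℝ) / √(specRadius G)) < energy G := by
  intro C
  obtain ⟨k, hk⟩ := exists_nat_gt (max 1 ((2 * |C|) ^ 2))
  have hk1 : (1 : ℝ) < k := (le_max_left _ _).trans_lt hk
  have hk2 : (2 * |C|) ^ 2 < k := (le_max_right _ _).trans_lt hk
  have hk0 : 0 < k := by
    have : (0 : ℝ) < k := by linarith
    exact_mod_cast this
  have hkr : (0 : ℝ) < k := by exact_mod_cast hk0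
  refine ⟨_, inferInstance, spider (k ^ 2), spider_connected _,
    spider_edges_pos _ (by positivity), ?_⟩
  have hE := spider_energy (k ^ 2)
  have hm : ((spider (k ^ 2)).edgeSet.ncard : ℝ) ≤ 2 * (k : ℝ) ^ 2 := by
    exact_mod_cast spider_edges (k ^ 2)
  have hr := spider_specRadius k hk0
  have hsq : √(k : ℝ) ≤ √(specRadius (spider (k ^ 2))) := Real.sqrt_le_sqrt hr
  have hsk : 0 < √(k : ℝ) := Real.sqrt_pos.mpr hkr
  have h2C : 2 * |C| < √(k : ℝ) := Real.lt_sqrt_of_sq_lt hk2
  have hm0 : (0 : ℝ) ≤ ((spider (k ^ 2)).edgeSet.ncard : ℝ) := Nat.cast_nonneg _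
  push_cast at hE
  calc C * (2 * ((spider (k ^ 2)).edgeSet.ncard : ℝ) / √(specRadius (spider (k ^ 2))))
      ≤ |C| * (2 * ((spider (k ^ 2)).edgeSet.ncard : ℝ) / √(specRadius (spider (k ^ 2)))) :=
        mul_le_mul_of_nonneg_right (le_abs_self C) (by positivity)
    _ ≤ |C| * (2 * (2 * (k : ℝ) ^ 2) / √(k : ℝ)) := by
        refine mul_le_mul_of_nonneg_left ?_ (abs_nonneg C)
        exact div_le_div₀ (by positivity) (by linarith) hsk hsq
    _ = (2 * |C|) * (2 * (k : ℝ) ^ 2) / √(k : ℝ) := by ring
    _ < √(k : ℝ) * (2 * (k : ℝ) ^ 2) / √(k : ℝ) := by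
        refine div_lt_div_of_pos_right ?_ hsk
        exact mul_lt_mul_of_pos_right h2C (by positivity)
    _ = 2 * (k : ℝ) ^ 2 := by field_simp
    _ ≤ energy (spider (k ^ 2)) := hE

end Pool.Agent.Results.MP_4a987e_co.EnergyUnbounded
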